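import Pool.Agent.Q188.Mean.Val

/-!
# Rhombic dodecahedra of given mean width with maximal intrinsic volumes are regular

For `x i = |p i|`, `G` the Gram matrix of the vectors `p i / √|p i|` and `2 ≤ k ≤ d` one has
`V_k = ∑_I √(∏_I x) √(det G_I) ≤ √(e_k(x)) √(∑_I det G_I)`, and both factors are largest exactly for
the regular ones, by Maclaurin's inequality for the `x i` and for the eigenvalues of `G`.
-/

set_option autoImplicit false

open Finset Q188.Mean Q188.Rhomb

namespace Pool.Agent.Results.MP_c3e14a_gt.MaximalRegular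

theorem kappa_pos (m : ℕ) : 0 < kappa m := by
  unfold kappa
  rw [ENNReal.toReal_pos_iff]
  exact ⟨Metric.measure_ball_pos _ _ one_pos, MeasureTheory.measure_ball_lt_top⟩

theorem meanWidth_factor {d : ℕ} (hd : 0 < d) : 0 < 2 * kappa (d - 1) / (d * kappa d) := by
  have h1 := kappa_pos (d - 1)
  have h2 := kappa_pos d
  have : (0 : ℝ) < d := by exact_mod_cast hd
  positivity

/-- Let `2 ≤ k ≤ d`.  (1) For all `p_1, …, p_{d+1} ∈ ℝ^d` the zonotope `Z = ∑ [o, p_i]` satisfies
`V_k(Z) ≤ bd d k S`, `S = ∑ |p_i|`, and, if `S > 0`, equality holds only if `Z` is a regular rhombic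
dodecahedron; it holds if `p` is a regular simplex centred at the origin.  (2) Every rhombic
dodecahedron with mean width `1` whose `V_k` is maximal among all rhombic dodecahedra with mean
width `1` is regular.  (3) The maximum is attained, by a regular one. -/
theorem result (d k : ℕ) (hk : 1 < k) (hkd : k ≤ d) :
    (∀ p : Fin (d + 1) → EuclideanSpace ℝ (Fin d), Vk k p ≤ bd d k (∑ i, ‖p i‖) ∧
      (0 < ∑ i, ‖p i‖ → Vk k p = bd d k (∑ i, ‖p i‖) → IsRegularRhombic (Zono p)) ∧
      ((∃ l : ℝ, 0 < l ∧ ∀ i j, i ≠ j → dist (p i) (p j) = l) → ∑ i, p i = 0 →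
        Vk k p = bd d k (∑ i, ‖p i‖))) ∧
    (∀ p : Fin (d + 1) → EuclideanSpace ℝ (Fin d), Submodule.span ℝ (Set.range p) = ⊤ →
      meanWidth p = 1 →
      (∀ p' : Fin (d + 1) → EuclideanSpace ℝ (Fin d), Submodule.span ℝ (Set.range p') = ⊤ →
        meanWidth p' = 1 → Vk k p' ≤ Vk k p) →
      IsRegularRhombic (Zono p)) ∧
    (∃ p : Fin (d + 1) → EuclideanSpace ℝ (Fin d), Submodule.span ℝ (Set.range p) = ⊤ ∧
      meanWidth p = 1 ∧ IsRegularRhombic (Zono p) ∧
      ∀ p' : Fin (d + 1) → EuclideanSpace ℝ (Fin d), Submodule.span ℝ (Set.range p') = ⊤ →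
        meanWidth p' = 1 → Vk k p' ≤ Vk k p) := by
  have hd : 0 < d := by omega
  have hd' : (0 : ℝ) < d := by exact_mod_cast hd
  set f := 2 * kappa (d - 1) / (d * kappa d) with hf
  have hf0 : 0 < f := meanWidth_factor hd
  have hw : ∀ p : Fin (d + 1) → EuclideanSpace ℝ (Fin d), meanWidth p = 1 → ∑ i, ‖p i‖ = f⁻¹ := by
    intro p hp
    unfold meanWidth at hp
    rw [← hf] at hp
    exact eq_inv_of_mul_eq_one_right hp
  -- a regular one of mean width `1`
  obtain ⟨p₀, c, hc, hg₀, hspan₀, hw₀⟩ : ∃ (p₀ : Fin (d + 1) → EuclideanSpace ℝ (Fin d)) (c : ℝ),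
      0 < c ∧ (∀ a b, inner ℝ (p₀ a) (p₀ b) = c * ((if a = b then 1 else 0) - 1 / ((d : ℝ) + 1))) ∧
      Submodule.span ℝ (Set.range p₀) = ⊤ ∧ meanWidth p₀ = 1 := by
    obtain ⟨r, hr, hspan⟩ := exists_reg d
    have hr0 : 0 < ∑ i, ‖r i‖ := by
      have h0 : 0 < ‖r 0‖ := by
        have h1 := hr 0 0
        rw [real_inner_self_eq_norm_sq, if_pos rfl] at h1
        have h2 : 0 < 1 - 1 / ((d : ℝ) + 1) := by
          rw [sub_pos, div_lt_one (by positivity)]
          linarith
        rw [← h1] at h2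
        exact lt_of_le_of_ne (norm_nonneg _) (fun h => by rw [← h] at h2; norm_num at h2)
      exact lt_of_lt_of_le h0 (single_le_sum (f := fun i => ‖r i‖) (fun i _ => norm_nonneg _)
        (mem_univ 0))
    set t := (f * ∑ i, ‖r i‖)⁻¹ with ht
    have ht0 : 0 < t := by positivity
    refine ⟨fun i => t • r i, t ^ 2, by positivity, ?_, ?_, ?_⟩
    · intro a b
      rw [inner_smul_left, inner_smul_right, hr]
      simp only [conj_trivial]
      ring
    · rw [Submodule.eq_top_iff']
      intro x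
      have hx : t⁻¹ • x ∈ Submodule.span ℝ (Set.range r) := by rw [hspan]; trivial
      have hsub : Submodule.span ℝ (Set.range r) ≤
          Submodule.span ℝ (Set.range fun i => t • r i) := by
        rw [Submodule.span_le]
        rintro _ ⟨i, rfl⟩
        have : r i = t⁻¹ • (t • r i) := by rw [smul_smul, inv_mul_cancel₀ ht0.ne', one_smul]
        rw [this]
        exact Submodule.smul_mem _ _ (Submodule.subset_span ⟨i, rfl⟩)
      have := Submodule.smul_mem _ t (hsub hx)
      rwa [smul_smul, mul_inv_cancel₀ ht0.ne', one_smul] at this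
    · unfold meanWidth
      rw [← hf]
      simp only [norm_smul, Real.norm_eq_abs, abs_of_pos ht0]
      rw [← mul_sum, ht]
      field_simp
  have hv₀ := vk_of_gram hkd hd p₀ hc hg₀
  have hreg₀ : IsRegularRhombic (Zono p₀) := by
    refine regular_of_max hk hkd p₀ ?_ hv₀.ge
    rw [hw p₀ hw₀]
    positivity
  refine ⟨fun p => ⟨vk_le hkd hd p, fun hS h => regular_of_max hk hkd p hS h.ge, ?_⟩, ?_, ?_⟩
  · rintro ⟨l, hl, hdist⟩ hs
    exact vk_of_gram hkd hd p (c := l ^ 2 / 2) (by positivity) (gram_reg p hdist hs)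
  · intro p _ hp hmax
    refine regular_of_max hk hkd p ?_ ?_
    · rw [hw p hp]
      positivity
    · have h1 := hmax p₀ hspan₀ hw₀
      rw [hv₀, hw p₀ hw₀] at h1
      rw [hw p hp]
      exact h1
  · refine ⟨p₀, hspan₀, hw₀, hreg₀, fun p' _ hp' => ?_⟩
    have h1 := vk_le hkd hd p'
    rw [hw p' hp'] at h1
    rw [hv₀, hw p₀ hw₀]
    exact h1

end Pool.Agent.Results.MP_c3e14a_gt.MaximalRegular
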